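import Pool.Agent.Q221.SymFn.Ext

set_option autoImplicit false
set_option linter.unusedSectionVars false

namespace Pool.Agent.Q221.SymFn

open Polynomial

section

variable {J : Type} [Fintype J] [DecidableEq J] (v : J → ℤ)

/-- the polynomial vanishing exactly at `0` and the values `v j` -/
noncomputable def ee (m : ℕ) : ℚ[X] := (e0 v) ^ 2 * (1 + X ^ 2) ^ m

theorem ee_eval (m : ℕ) (y : ℝ) :
    aeval y (ee v m) = (aeval y (e0 v)) ^ 2 * (1 + y ^ 2) ^ m := by
  simp [ee]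

theorem e0_eval (y : ℝ) : aeval y (e0 v) = y * ∏ j, (y - v j) := by
  simp [e0, map_prod]

theorem ee_coeff (m : ℕ) : (ee v m).coeff 0 = 0 := by
  rw [coeff_zero_eq_eval_zero]
  simp [ee, e0]

theorem natDegree_e0 : (e0 v).natDegree = Fintype.card J + 1 := by
  have hm : (∏ j, (X - C (v j : ℚ))).Monic := monic_prod_of_monic _ _ fun j _ => monic_X_sub_C _
  unfold e0
  have h1 : ∀ j, (X - C (v j : ℚ)).natDegree = 1 := fun j => natDegree_X_sub_C _
  rw [natDegree_X_mul hm.ne_zero, natDegree_prod_of_monic _ _ fun j _ => monic_X_sub_C _]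
  simp only [h1, Finset.sum_const, Finset.card_univ, smul_eq_mul, mul_one]

theorem natDegree_ee (m : ℕ) : (ee v m).natDegree = 2 * (Fintype.card J + 1) + 2 * m := by
  have h1 : (1 + X ^ 2 : ℚ[X]) = X ^ 2 + C 1 := by simp [add_comm]
  have hd : (1 + X ^ 2 : ℚ[X]).natDegree = 2 := by
    rw [h1]
    exact natDegree_X_pow_add_C
  have hm : (1 + X ^ 2 : ℚ[X]).Monic := by
    rw [h1]
    exact monic_X_pow_add_C _ two_ne_zero
  have h0 : (e0 v).Monic := by
    unfold e0
    exact monic_X.mul (monic_prod_of_monic _ _ fun j _ => monic_X_sub_C _)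
  unfold ee
  rw [(h0.pow 2).natDegree_mul (hm.pow m), h0.natDegree_pow, hm.natDegree_pow, hd, natDegree_e0]
  ring

theorem ee_nonneg (m : ℕ) (y : ℝ) : 0 ≤ aeval y (ee v m) := by
  rw [ee_eval]
  positivity

theorem sq_le_ps {n : ℕ} (x : Fin n → ℝ) (i : Fin n) : x i ^ 2 ≤ ps x 1 := by
  unfold ps
  exact Finset.single_le_sum (f := fun i => x i ^ 2) (fun i _ => sq_nonneg _) (Finset.mem_univ i)

theorem ps_one_nonneg {n : ℕ} (x : Fin n → ℝ) : 0 ≤ ps x 1 :=
  Finset.sum_nonneg fun i _ => sq_nonneg _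

/-- bound of the sum of the values of `ee` -/
theorem ee_sum_bound (m : ℕ) : ∃ (C : ℝ) (k : ℕ), 0 ≤ C ∧ ∀ (n : ℕ) (x : Fin n → ℝ),
    ∑ i, aeval (x i) (ee v m) ≤ C * (1 + ps x 1) ^ (k + 1) := by
  obtain ⟨C, k, hC, h⟩ := poly_growth ((∏ j, (X - Polynomial.C (v j : ℚ))) ^ 2 * (1 + X ^ 2) ^ m)
  refine ⟨C, k, hC, fun n x => ?_⟩
  have hp := ps_one_nonneg x
  have h1 : ∀ i, aeval (x i) (ee v m) ≤ x i ^ 2 * (C * (1 + ps x 1) ^ k) := by
    intro i
    have e1 : aeval (x i) (ee v m) = x i ^ 2 *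
        aeval (x i) ((∏ j, (X - Polynomial.C (v j : ℚ))) ^ 2 * (1 + X ^ 2) ^ m) := by
      rw [← aeval_X (R := ℚ) (x i), aeval_X (R := ℚ) (x i)]
      conv_lhs => rw [ee, e0]
      have : (X * ∏ j, (X - Polynomial.C (v j : ℚ))) ^ 2 * (1 + X ^ 2) ^ m =
          X ^ 2 * ((∏ j, (X - Polynomial.C (v j : ℚ))) ^ 2 * (1 + X ^ 2) ^ m) := by ring
      rw [this, map_mul, map_pow, aeval_X]
    rw [e1]
    apply mul_le_mul_of_nonneg_left _ (sq_nonneg _)
    refine (le_abs_self _).trans ((h _).trans ?_)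
    have := sq_le_ps x i
    gcongr
  calc ∑ i, aeval (x i) (ee v m) ≤ ∑ i, x i ^ 2 * (C * (1 + ps x 1) ^ k) :=
        Finset.sum_le_sum fun i _ => h1 i
    _ = ps x 1 * (C * (1 + ps x 1) ^ k) := by rw [← Finset.sum_mul]; rfl
    _ ≤ (1 + ps x 1) * (C * (1 + ps x 1) ^ k) := by
      apply mul_le_mul_of_nonneg_right _ (by positivity)
      linarith
    _ = _ := by ring

theorem ind_le (h0 : ∀ j, v j ≠ 0) (j : J) (y : ℝ) : (ind v j y : ℝ) ≤ 4 * y ^ 2 := by
  unfold ind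
  split_ifs with h
  · have h1 : (1 : ℝ) ≤ |(v j : ℝ)| := by
      have : (1 : ℤ) ≤ |v j| := Int.one_le_abs (h0 j)
      exact_mod_cast this
    have h2 : |(v j : ℝ)| ≤ |y| + |y - v j| := by
      have := abs_sub_abs_le_abs_sub (v j : ℝ) y
      rw [abs_sub_comm (v j : ℝ) y] at this
      linarith
    have h3 : 1 / 2 ≤ |y| := by linarith
    have h4 := pow_le_pow_left₀ (by norm_num) h3 2
    rw [sq_abs] at h4
    norm_num at h4 ⊢
    linarith
  · have := sq_nonneg y
    norm_num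
    positivity

end

/-- The main estimate. -/
theorem exists_bound {α J : Type} [Fintype α] [Fintype J] [DecidableEq J] (f : Poly α) (i0 : α)
    (v : J → ℤ) (hv : Function.Injective v) (h0 : ∀ j, v j ≠ 0) (ι : α → J) :
    ∃ (Q : α → ℚ[X]) (m M T0 : ℕ) (G : (α → ℝ) → ℝ), Ext f G ∧ 0 < M ∧
      (∀ a, (Q a).coeff 0 = 0) ∧
      (∀ a j, aeval (v j : ℝ) (Q a) = if j = ι a then 1 else 0) ∧
      ∀ (n T k : ℕ) (x : Fin k → ℝ), T0 ≤ T → (∀ t : α → ℕ, t i0 = n → f t ≠ 0) →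
        1 / 2 + M * ((1 + ps x 1) ^ T * ∑ i, aeval (x i) (ee v m)) ≤
          G (fun a => ∑ i, aeval (x i) (Q a)) ^ 2 + ((∑ i, aeval (x i) (Q i0)) - n) ^ 2 - 1 / 2 +
            2 * M * (n + 1) * ((1 + ps x 1) ^ T * ∑ i, aeval (x i) (ee v m)) := by
  classical
  choose A B hAB using fun j => exists_Q v hv h0 j
  choose C1 m1 hC1 hb using fun j => ind_bound v hv h0 j (A j) (B j) (hAB j)
  set m := ∑ a, m1 (ι a) with hm
  set C := ∑ a, C1 (ι a) with hC
  have hC0 : 0 ≤ C := Finset.sum_nonneg fun a _ => hC1 _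
  have hQb : ∀ (a : α) (y : ℝ), |aeval y (A (ι a) * e0j v (ι a) ^ 2) - (ind v (ι a) y : ℝ)| ≤
      C * aeval y (ee v m) := by
    intro a y
    refine (hb (ι a) y).trans ?_
    rw [ee_eval]
    have h1 := one_le_sq y
    have e1 : C1 (ι a) ≤ C :=
      Finset.single_le_sum (f := fun a => C1 (ι a)) (fun a _ => hC1 _) (Finset.mem_univ a)
    have e2 : m1 (ι a) ≤ m :=
      Finset.single_le_sum (f := fun a => m1 (ι a)) (fun a _ => Nat.zero_le _) (Finset.mem_univ a)
    gcongr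
  obtain ⟨C2, k2, hC2, hE⟩ := ee_sum_bound v m
  obtain ⟨G, hG⟩ := exists_ext f
  obtain ⟨CG, TG, hCG, hL⟩ := hG.lip
  set c := 4 + C * C2 with hc
  have hc4 : 4 ≤ c := by have := mul_nonneg hC0 hC2; linarith
  obtain ⟨M, hM⟩ := exists_nat_gt (2 * CG ^ 2 * c ^ (2 * TG) * C + 2 * C * c)
  have hM0 : 0 < M := by
    have : (0 : ℝ) < M := lt_of_le_of_lt (by positivity) hM
    exact_mod_cast this
  refine ⟨fun a => A (ι a) * e0j v (ι a) ^ 2, m, M, (k2 + 1) * (2 * TG + 1), G, hG, hM0, ?_, ?_, ?_⟩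
  · intro a
    rw [coeff_zero_eq_eval_zero]
    simp [e0j]
  · intro a j
    by_cases hj : j = ι a
    · rw [if_pos hj]
      have := congrArg (aeval (v j : ℝ)) (hAB (ι a))
      rw [map_sub, map_one, map_mul, map_pow, map_mul, map_pow, map_sub, aeval_X, aeval_C] at this
      rw [map_mul, map_pow]
      have e : ((v j : ℝ) - algebraMap ℚ ℝ (v (ι a) : ℚ)) = 0 := by
        rw [hj]
        simp
      rw [e] at this
      norm_num at this
      linarith
    · rw [if_neg hj, map_mul, map_pow, aeval_e0j, Finset.prod_eq_zero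
        (Finset.mem_erase.2 ⟨hj, Finset.mem_univ j⟩) (sub_self _)]
      simp
  · intro n T k x hT hroot
    set r := 1 + ps x 1 with hr
    have hr1 : 1 ≤ r := by have := ps_one_nonneg x; linarith
    set E := ∑ i, aeval (x i) (ee v m) with hEdef
    have hE0 : 0 ≤ E := Finset.sum_nonneg fun i _ => ee_nonneg v m _
    set N : α → ℝ := fun a => ∑ i, aeval (x i) (A (ι a) * e0j v (ι a) ^ 2) with hN
    set Nh : α → ℕ := fun a => ∑ i, ind v (ι a) (x i) with hNh
    have hdiff : ∀ a, |N a - (Nh a : ℝ)| ≤ C * E := by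
      intro a
      simp only [hN, hNh]
      push_cast
      rw [← Finset.sum_sub_distrib, hEdef, Finset.mul_sum]
      exact (Finset.abs_sum_le_sum_abs _ _).trans (Finset.sum_le_sum fun i _ => hQb a (x i))
    set R := c * r ^ (k2 + 1) with hR
    have hrk : 1 ≤ r ^ (k2 + 1) := one_le_pow₀ hr1
    have hR1 : 1 ≤ R := by nlinarith
    have hNhb : ∀ a, |(Nh a : ℝ)| ≤ R := by
      intro a
      rw [abs_of_nonneg (Nat.cast_nonneg _)]
      simp only [hNh]
      push_cast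
      calc ∑ i, (ind v (ι a) (x i) : ℝ) ≤ ∑ i, 4 * x i ^ 2 :=
            Finset.sum_le_sum fun i _ => ind_le v h0 _ _
        _ = 4 * ps x 1 := by rw [← Finset.mul_sum]; rfl
        _ ≤ 4 * r := by linarith
        _ ≤ 4 * r ^ (k2 + 1) := by
          have : r ≤ r ^ (k2 + 1) := le_self_pow₀ hr1 (by omega)
          linarith
        _ ≤ R := by
          rw [hR]
          nlinarith
    have hNb : ∀ a, |N a| ≤ R := by
      intro a
      have h1 : |N a| ≤ |N a - (Nh a : ℝ)| + |(Nh a : ℝ)| := by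
        have := abs_add_le (N a - (Nh a : ℝ)) (Nh a : ℝ)
        rwa [sub_add_cancel] at this
      have h2 : |(Nh a : ℝ)| ≤ 4 * r ^ (k2 + 1) := by
        rw [abs_of_nonneg (Nat.cast_nonneg _)]
        simp only [hNh]
        push_cast
        calc ∑ i, (ind v (ι a) (x i) : ℝ) ≤ ∑ i, 4 * x i ^ 2 :=
              Finset.sum_le_sum fun i _ => ind_le v h0 _ _
          _ = 4 * ps x 1 := by rw [← Finset.mul_sum]; rfl
          _ ≤ 4 * r := by linarith
          _ ≤ 4 * r ^ (k2 + 1) := by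
            have : r ≤ r ^ (k2 + 1) := le_self_pow₀ hr1 (by omega)
            linarith
      have h3 : C * E ≤ C * (C2 * r ^ (k2 + 1)) := by
        apply mul_le_mul_of_nonneg_left (hE k x) hC0
      have := hdiff a
      rw [hR, hc]
      linarith
    obtain ⟨g1, g2⟩ := hL R (C * E) N (fun a => (Nh a : ℝ)) hR1 (by positivity) hNb hNhb hdiff
    obtain ⟨g3, -⟩ := hL R (C * E) (fun a => (Nh a : ℝ)) N hR1 (by positivity) hNhb hNb
      (fun i => by rw [abs_sub_comm]; exact hdiff i)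
    have hGNh : G (fun a => (Nh a : ℝ)) = ((f Nh : ℤ) : ℝ) := hG.val Nh
    -- the integer values
    have hint : (1 : ℝ) ≤ ((f Nh : ℤ) : ℝ) ^ 2 + ((Nh i0 : ℝ) - n) ^ 2 := by
      have h1 : (1 : ℤ) ≤ (f Nh) ^ 2 + ((Nh i0 : ℤ) - n) ^ 2 := by
        by_contra hcon
        push Not at hcon
        have h2 : (f Nh) ^ 2 = 0 ∧ ((Nh i0 : ℤ) - n) ^ 2 = 0 := by
          constructor <;> nlinarith [sq_nonneg (f Nh), sq_nonneg ((Nh i0 : ℤ) - n)]
        have h3 : f Nh = 0 := by simpa using h2.1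
        have h4 : (Nh i0 : ℤ) - n = 0 := by simpa using h2.2
        exact hroot Nh (by omega) h3
      exact_mod_cast h1
    -- the two differences
    have d1 : |G N ^ 2 - ((f Nh : ℤ) : ℝ) ^ 2| ≤ 2 * CG ^ 2 * R ^ (2 * TG) * C * E := by
      rw [← hGNh]
      have : G N ^ 2 - G (fun a => (Nh a : ℝ)) ^ 2 =
          (G N - G (fun a => (Nh a : ℝ))) * (G N + G (fun a => (Nh a : ℝ))) := by ring
      rw [this, abs_mul]
      calc |G N - G (fun a => (Nh a : ℝ))| * |G N + G (fun a => (Nh a : ℝ))|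
          ≤ (CG * R ^ TG * (C * E)) * (CG * R ^ TG + CG * R ^ TG) := by
            apply mul_le_mul g2 ((abs_add_le _ _).trans (add_le_add g1 g3)) (abs_nonneg _)
            positivity
        _ = _ := by rw [two_mul TG, pow_add]; ring
    have d2 : |(N i0 - n) ^ 2 - ((Nh i0 : ℝ) - n) ^ 2| ≤ 2 * C * R * (n + 1) * E := by
      have : (N i0 - n) ^ 2 - ((Nh i0 : ℝ) - n) ^ 2 =
          (N i0 - Nh i0) * ((N i0 - n) + ((Nh i0 : ℝ) - n)) := by ring
      rw [this, abs_mul]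
      have h1 : |(N i0 - n) + ((Nh i0 : ℝ) - n)| ≤ 2 * R * (n + 1) := by
        have a1 := hNb i0
        have a2 := hNhb i0
        have a3 : (0 : ℝ) ≤ n := Nat.cast_nonneg _
        rw [abs_le] at a1 a2 ⊢
        constructor <;> nlinarith
      calc |N i0 - Nh i0| * |(N i0 - n) + ((Nh i0 : ℝ) - n)| ≤ (C * E) * (2 * R * (n + 1)) :=
            mul_le_mul (hdiff i0) h1 (abs_nonneg _) (by positivity)
        _ = _ := by ring
    have hn0 : (0 : ℝ) ≤ n := Nat.cast_nonneg _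
    have hpow : ∀ s, s ≤ (k2 + 1) * (2 * TG + 1) → r ^ s ≤ r ^ T := fun s hs =>
      pow_le_pow_right₀ hr1 (hs.trans hT)
    have b1 : R ^ (2 * TG) ≤ c ^ (2 * TG) * r ^ T := by
      rw [hR, mul_pow, ← pow_mul]
      apply mul_le_mul_of_nonneg_left _ (by positivity)
      exact hpow _ (Nat.mul_le_mul_left _ (by omega))
    have b2 : R ≤ c * r ^ T := by
      rw [hR]
      apply mul_le_mul_of_nonneg_left _ (by positivity)
      exact hpow _ (by nlinarith [Nat.zero_le TG, Nat.zero_le k2])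
    have tot : 2 * CG ^ 2 * R ^ (2 * TG) * C * E + 2 * C * R * (n + 1) * E ≤
        M * (n + 1) * (r ^ T * E) := by
      have hrT : 0 ≤ r ^ T := by positivity
      calc 2 * CG ^ 2 * R ^ (2 * TG) * C * E + 2 * C * R * (n + 1) * E
          ≤ 2 * CG ^ 2 * (c ^ (2 * TG) * r ^ T) * C * E + 2 * C * (c * r ^ T) * (n + 1) * E := by
            gcongr
        _ ≤ 2 * CG ^ 2 * (c ^ (2 * TG) * r ^ T) * C * E * (n + 1) +
            2 * C * (c * r ^ T) * (n + 1) * E := by
            have : 0 ≤ 2 * CG ^ 2 * (c ^ (2 * TG) * r ^ T) * C * E := by positivity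
            nlinarith
        _ = (2 * CG ^ 2 * c ^ (2 * TG) * C + 2 * C * c) * ((n + 1) * (r ^ T * E)) := by ring
        _ ≤ M * ((n + 1) * (r ^ T * E)) := by
            apply mul_le_mul_of_nonneg_right hM.le (by positivity)
        _ = _ := by ring
    have k1 := (abs_le.1 d1).1
    have k2' := (abs_le.1 d2).1
    have key : M * (r ^ T * E) ≤ M * (n + 1) * (r ^ T * E) := by
      have : 0 ≤ (M : ℝ) * (r ^ T * E) := by positivity
      nlinarith
    change 1 / 2 + M * (r ^ T * E) ≤ G N ^ 2 + (N i0 - n) ^ 2 - 1 / 2 +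
      2 * M * (n + 1) * (r ^ T * E)
    linarith

end Pool.Agent.Q221.SymFn
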