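import Pool.Agent.Q221.SymFn.Ana

set_option autoImplicit false
set_option linter.unusedSectionVars false

namespace Pool.Agent.Q221.SymFn

open MvPolynomial

/-- code of a rational number -/
def q2c (q : ℚ) : ℕ × ℕ × ℕ := (q.num.toNat, (-q.num).toNat, q.den - 1)

theorem q2c_spec (q : ℚ) : (((q2c q).1 : ℚ) - ((q2c q).2.1 : ℚ)) / (((q2c q).2.2 : ℚ) + 1) = q := by
  unfold q2c
  simp only
  have h1 : ((q.num.toNat : ℚ) - ((-q.num).toNat : ℚ)) = q.num := by
    have : (q.num.toNat : ℤ) - ((-q.num).toNat : ℤ) = q.num := by omega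
    exact_mod_cast congrArg (fun z : ℤ => (z : ℚ)) this
  have h2 : ((q.den - 1 : ℕ) : ℚ) + 1 = q.den := by
    have := q.den_pos
    rw [Nat.cast_sub (by omega)]
    simp
  rw [h1, h2]
  exact Rat.num_div_den q

/-- homogenized code -/
def hc (D : ℕ) (l : RL) : Code :=
  l.map fun t => (q2c t.1, List.replicate (D - wt t.2) 0 ++ t.2)

/-- multiplication by a natural number -/
def scale (n : ℕ) (c : Code) : Code := c.map fun t => ((n * t.1.1, n * t.1.2.1, t.1.2.2), t.2)

/-- homogenized value of a list of terms -/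
def EvH (D : ℕ) (σ : ℝ) (p : ℕ → ℝ) (l : RL) : ℝ :=
  (l.map fun t => (t.1 : ℝ) * (σ ^ (D - wt t.2) * (t.2.map p).prod)).sum

theorem trunc_poly (c : Code) {n : ℕ} (x : Fin n → ℝ) : trunc (poly c) x =
    (c.map fun t => (((t.1.1 : ℝ) - (t.1.2.1 : ℝ)) / ((t.1.2.2 : ℝ) + 1)) *
      (t.2.map (ps x)).prod).sum := by
  unfold trunc poly
  rw [map_list_sum, List.map_map]
  congr 1
  apply List.map_congr_left
  intro t _
  simp only [Function.comp_apply, map_mul, map_list_prod, List.map_map, aeval_C]
  congr 1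
  · simp
  · congr 1
    apply List.map_congr_left
    intro k _
    simp

theorem trunc_append (c c' : Code) {n : ℕ} (x : Fin n → ℝ) :
    trunc (poly (c ++ c')) x = trunc (poly c) x + trunc (poly c') x := by
  rw [trunc_poly, trunc_poly, trunc_poly]
  simp

theorem trunc_scale (m : ℕ) (c : Code) {n : ℕ} (x : Fin n → ℝ) :
    trunc (poly (scale m c)) x = m * trunc (poly c) x := by
  rw [trunc_poly, trunc_poly, scale, List.map_map, ← List.sum_map_mul_left]
  congr 1
  apply List.map_congr_left
  intro t _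
  simp only [Function.comp_apply]
  push_cast
  ring

theorem trunc_hc (D : ℕ) (l : RL) {n : ℕ} (x : Fin n → ℝ) :
    trunc (poly (hc D l)) x = EvH D (ps x 0) (ps x) l := by
  rw [trunc_poly, hc, List.map_map, EvH]
  congr 1
  apply List.map_congr_left
  intro t _
  simp only [Function.comp_apply]
  have h := q2c_spec t.1
  have h' : ((((q2c t.1).1 : ℝ) - ((q2c t.1).2.1 : ℝ)) / (((q2c t.1).2.2 : ℝ) + 1)) = (t.1 : ℝ) := by
    have := congrArg (fun q : ℚ => (q : ℝ)) h
    push_cast at this
    exact this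
  rw [h']
  simp

theorem isHom_append {c c' : Code} {D : ℕ} (h : IsHom (poly c) D) (h' : IsHom (poly c') D) :
    IsHom (poly (c ++ c')) D := by
  have : poly (c ++ c') = poly c + poly c' := by simp [poly]
  rw [this]
  exact IsWeightedHomogeneous.add h h'

theorem isHom_of {c : Code} {D : ℕ} (h : ∀ t ∈ c, wt t.2 = D) : IsHom (poly c) D := by
  induction c with
  | nil =>
    simp only [poly, List.map_nil, List.sum_nil]
    exact isWeightedHomogeneous_zero _ _ _
  | cons t c ih =>
    have e : poly (t :: c) = C (((t.1.1 : ℚ) - (t.1.2.1 : ℚ)) / ((t.1.2.2 : ℚ) + 1)) *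
        (t.2.map X).prod + poly c := by simp [poly]
    rw [e]
    refine IsWeightedHomogeneous.add ?_ (ih fun s hs => h s (List.mem_cons_of_mem _ hs))
    have h1 : ∀ ks : List ℕ, IsWeightedHomogeneous (fun k : ℕ => k + 1)
        ((ks.map X).prod : MvPolynomial ℕ ℚ) (wt ks) := by
      intro ks
      induction ks with
      | nil => exact isWeightedHomogeneous_one _ _
      | cons k ks ih =>
        simp only [List.map_cons, List.prod_cons]
        have := (isWeightedHomogeneous_X ℚ (fun k : ℕ => k + 1) k).mul ih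
        simpa [wt] using this
    have h2 := (isWeightedHomogeneous_C (fun k : ℕ => k + 1)
      (((t.1.1 : ℚ) - (t.1.2.1 : ℚ)) / ((t.1.2.2 : ℚ) + 1))).mul (h1 t.2)
    rw [zero_add, h t List.mem_cons_self] at h2
    exact h2

theorem wt_replicate (n : ℕ) : wt (List.replicate n 0) = n := by simp [wt]

theorem isHom_hc (D : ℕ) (l : RL) (h : ∀ t ∈ l, wt t.2 ≤ D) : IsHom (poly (hc D l)) D := by
  apply isHom_of
  intro t ht
  obtain ⟨s, hs, rfl⟩ := List.mem_map.1 ht
  simp only [wt_append, wt_replicate]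
  have := h s hs
  omega

theorem isHom_scale_hc (D m : ℕ) (l : RL) (h : ∀ t ∈ l, wt t.2 ≤ D) :
    IsHom (poly (scale m (hc D l))) D := by
  apply isHom_of
  intro t ht
  obtain ⟨s, hs, rfl⟩ := List.mem_map.1 ht
  obtain ⟨s', hs', rfl⟩ := List.mem_map.1 hs
  simp only [wt_append, wt_replicate]
  have := h s' hs'
  omega

theorem EvH_eq (D : ℕ) (σ : ℝ) (hσ : σ ≠ 0) (p : ℕ → ℝ) (l : RL) (h : ∀ t ∈ l, wt t.2 ≤ D) :
    EvH D σ p l = σ ^ D * Ev (fun k => p k / σ ^ (k + 1)) l := by
  unfold EvH Ev
  rw [← List.sum_map_mul_left]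
  congr 1
  apply List.map_congr_left
  intro t ht
  have h1 : ∀ ks : List ℕ, (ks.map fun k => p k / σ ^ (k + 1)).prod * σ ^ (wt ks) =
      (ks.map p).prod := by
    intro ks
    induction ks with
    | nil => simp [wt]
    | cons k ks ih =>
      simp only [List.map_cons, List.prod_cons]
      rw [← ih]
      have : wt (k :: ks) = (k + 1) + wt ks := by simp [wt]
      rw [this, pow_add]
      field_simp
      ring
  rw [← h1 t.2]
  have h2 : σ ^ D = σ ^ (D - wt t.2) * σ ^ (wt t.2) := by
    rw [← pow_add]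
    congr 1
    have := h t ht
    omega
  rw [h2]
  ring

theorem EvH_cont (D : ℕ) (p : ℕ → ℝ) (l : RL) : Continuous fun σ => EvH D σ p l := by
  unfold EvH
  induction l with
  | nil => simp only [List.map_nil, List.sum_nil]; exact continuous_const
  | cons t l ih =>
    simp only [List.map_cons, List.sum_cons]
    exact (continuous_const.mul ((continuous_pow _).mul continuous_const)).add ih

theorem ps_div {n : ℕ} (x : Fin n → ℝ) (σ : ℝ) (k : ℕ) :
    ps (fun i => x i / σ) k = ps x k / σ ^ (k + 1) := by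
  unfold ps
  rw [Finset.sum_div]
  exact Finset.sum_congr rfl fun i _ => div_pow _ _ _

end Pool.Agent.Q221.SymFn
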