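import Mathlib

set_option autoImplicit false

namespace Pool.Agent.Q221.SymFn

open MvPolynomial

/-- The power sum `p_{k+1}` of the numbers `x_1, ..., x_n`. -/
def ps {n : ℕ} (x : Fin n → ℝ) (k : ℕ) : ℝ := ∑ i, x i ^ (k + 1)

/-- The value at `x` of the truncation `f^{(n)}` of the symmetric function
`f = g(p_1, p_2, p_3, ...)`; the variable number `k` of `g` stands for `p_{k+1}`. -/
noncomputable def trunc (g : MvPolynomial ℕ ℚ) {n : ℕ} (x : Fin n → ℝ) : ℝ := aeval (ps x) g

/-- `f = g(p_1, p_2, ...)` is any-dimensional non-negative. -/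
def AnyDimNonneg (g : MvPolynomial ℕ ℚ) : Prop := ∀ (n : ℕ) (x : Fin n → ℝ), 0 ≤ trunc g x

/-- `f = g(p_1, p_2, ...)` is homogeneous of degree `d`, where `p_k` has degree `k`. -/
def IsHom (g : MvPolynomial ℕ ℚ) (d : ℕ) : Prop := IsWeightedHomogeneous (fun k : ℕ => k + 1) g d

open Classical in
/-- `f = g(p_1, p_2, ...)` is any-dimensional positive. -/
def AnyDimPos (g : MvPolynomial ℕ ℚ) : Prop :=
  if ∃ d, IsHom g d then ∀ (n : ℕ) (x : Fin n → ℝ), x ≠ 0 → 0 < trunc g x
  else ∀ (n : ℕ) (x : Fin n → ℝ), 0 < trunc g x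

/-- Finite lists of terms with rational coefficients: the term `((a, b, c), ks)` stands for
`(a - b) / (c + 1)` times the product of the power sums `p_{k+1}`, `k` in the list `ks`. -/
abbrev Code := List ((ℕ × ℕ × ℕ) × List ℕ)

/-- the polynomial described by a code -/
noncomputable def poly (c : Code) : MvPolynomial ℕ ℚ :=
  (c.map fun t => C (((t.1.1 : ℚ) - (t.1.2.1 : ℚ)) / ((t.1.2.2 : ℚ) + 1)) *
    (t.2.map X).prod).sum

end Pool.Agent.Q221.SymFn
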