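import Pool.Agent.Q221.SymFn.Growth

set_option autoImplicit false

namespace Pool.Agent.Q221.SymFn

/-- `G` is the real polynomial function extending `f`. -/
structure Ext {α : Type} (f : Poly α) (G : (α → ℝ) → ℝ) : Prop where
  val : ∀ t : α → ℕ, G (fun i => (t i : ℝ)) = ((f t : ℤ) : ℝ)
  lip : ∃ (C : ℝ) (T : ℕ), 0 ≤ C ∧ ∀ (R d : ℝ) (u v : α → ℝ), 1 ≤ R → 0 ≤ d →
    (∀ i, |u i| ≤ R) → (∀ i, |v i| ≤ R) → (∀ i, |u i - v i| ≤ d) →
    |G u| ≤ C * R ^ T ∧ |G u - G v| ≤ C * R ^ T * d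
  rep : ∀ N : α → (ℕ → ℝ) → ℝ, (∀ j, ∃ W, Rep (N j) W) → ∃ W, Rep (fun p => G (fun j => N j p)) W

theorem exists_ext {α : Type} (f : Poly α) : ∃ G : (α → ℝ) → ℝ, Ext f G := by
  induction f using Poly.induction with
  | H1 i =>
    refine ⟨fun u => u i, ⟨fun t => by simp, ⟨1, 1, zero_le_one, ?_⟩, fun N hN => hN i⟩⟩
    intro R d u v hR hd hu hv huv
    rw [pow_one, one_mul]
    refine ⟨hu i, (huv i).trans ?_⟩
    nlinarith
  | H2 n =>
    refine ⟨fun _ => (n : ℝ), ⟨fun t => by simp, ⟨|(n : ℝ)|, 0, abs_nonneg _, ?_⟩, fun N hN => ?_⟩⟩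
    · intro R d u v hR hd hu hv huv
      rw [pow_zero, mul_one, sub_self, abs_zero]
      exact ⟨le_rfl, mul_nonneg (abs_nonneg _) hd⟩
    · exact ⟨0, (Rep.const (n : ℚ)).congr fun p => by simp⟩
  | H3 f g hf hg =>
    obtain ⟨F, hF, ⟨C, T, hC, hL⟩, hFr⟩ := hf
    obtain ⟨G, hG, ⟨C', T', hC', hL'⟩, hGr⟩ := hg
    refine ⟨fun u => F u - G u, ⟨fun t => ?_, ⟨C + C', T + T', by positivity, ?_⟩, fun N hN => ?_⟩⟩
    · change F _ - G _ = _
      rw [hF, hG]
      push_cast [Poly.sub_apply]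
      ring
    · intro R d u v hR hd hu hv huv
      obtain ⟨h1, h2⟩ := hL R d u v hR hd hu hv huv
      obtain ⟨h3, h4⟩ := hL' R d u v hR hd hu hv huv
      have e1 : R ^ T ≤ R ^ (T + T') := pow_le_pow_right₀ hR (by omega)
      have e2 : R ^ T' ≤ R ^ (T + T') := pow_le_pow_right₀ hR (by omega)
      constructor
      · calc |F u - G u| ≤ |F u| + |G u| := abs_sub _ _
          _ ≤ C * R ^ T + C' * R ^ T' := add_le_add h1 h3
          _ ≤ C * R ^ (T + T') + C' * R ^ (T + T') := by gcongr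
          _ = _ := by ring
      · calc |F u - G u - (F v - G v)| = |(F u - F v) - (G u - G v)| := by congr 1; ring
          _ ≤ |F u - F v| + |G u - G v| := abs_sub _ _
          _ ≤ C * R ^ T * d + C' * R ^ T' * d := add_le_add h2 h4
          _ ≤ C * R ^ (T + T') * d + C' * R ^ (T + T') * d := by gcongr
          _ = _ := by ring
    · obtain ⟨W, hW⟩ := hFr N hN
      obtain ⟨W', hW'⟩ := hGr N hN
      exact ⟨W + W', (hW.mono (by omega)).sub (hW'.mono (by omega))⟩
  | H4 f g hf hg =>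
    obtain ⟨F, hF, ⟨C, T, hC, hL⟩, hFr⟩ := hf
    obtain ⟨G, hG, ⟨C', T', hC', hL'⟩, hGr⟩ := hg
    refine ⟨fun u => F u * G u, ⟨fun t => ?_, ⟨2 * (C * C'), T + T', by positivity, ?_⟩,
      fun N hN => ?_⟩⟩
    · change F _ * G _ = _
      rw [hF, hG]
      push_cast [Poly.mul_apply]
      ring
    · intro R d u v hR hd hu hv huv
      obtain ⟨h1, h2⟩ := hL R d u v hR hd hu hv huv
      obtain ⟨h3, h4⟩ := hL' R d u v hR hd hu hv huv
      obtain ⟨h5, -⟩ := hL R d v u hR hd hv hu (fun i => by rw [abs_sub_comm]; exact huv i)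
      have hR0 : 0 ≤ R := by linarith
      constructor
      · rw [abs_mul]
        calc |F u| * |G u| ≤ (C * R ^ T) * (C' * R ^ T') := by gcongr
          _ = C * C' * R ^ (T + T') := by rw [pow_add]; ring
          _ ≤ _ := by
            apply mul_le_mul_of_nonneg_right _ (by positivity)
            nlinarith [mul_nonneg hC hC']
      · calc |F u * G u - F v * G v| = |(F u - F v) * G u + F v * (G u - G v)| := by congr 1; ring
          _ ≤ |(F u - F v) * G u| + |F v * (G u - G v)| := abs_add_le _ _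
          _ = |F u - F v| * |G u| + |F v| * |G u - G v| := by rw [abs_mul, abs_mul]
          _ ≤ (C * R ^ T * d) * (C' * R ^ T') + (C * R ^ T) * (C' * R ^ T' * d) := by gcongr
          _ = _ := by rw [pow_add]; ring
    · obtain ⟨W, hW⟩ := hFr N hN
      obtain ⟨W', hW'⟩ := hGr N hN
      exact ⟨W + W', hW.mul hW'⟩

end Pool.Agent.Q221.SymFn
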