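import Pool.Agent.Q221.SymFn.Main

set_option autoImplicit false

namespace Pool.Agent.Q221.SymFn

open MvPolynomial

/-- Every polynomial in the power sums has a code. -/
theorem exists_code (g : MvPolynomial ℕ ℚ) : ∃ c : Code, poly c = g := by
  induction g using MvPolynomial.induction_on with
  | C a =>
    refine ⟨[(q2c a, [])], ?_⟩
    simp only [poly, List.map_cons, List.map_nil, List.sum_cons, List.sum_nil, add_zero,
      List.prod_nil, mul_one]
    rw [q2c_spec]
  | add p q hp hq =>
    obtain ⟨c, rfl⟩ := hp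
    obtain ⟨c', rfl⟩ := hq
    exact ⟨c ++ c', by simp [poly]⟩
  | mul_X p i hp =>
    obtain ⟨c, rfl⟩ := hp
    refine ⟨c.map fun t => (t.1, i :: t.2), ?_⟩
    simp only [poly]
    rw [List.map_map, ← List.sum_map_mul_right]
    congr 1
    apply List.map_congr_left
    intro t _
    simp only [Function.comp_apply, List.map_cons, List.prod_cons]
    ring

theorem undecidable_nonneg (A : Code → Bool) (hA : Computable A) :
    ∃ (c : Code) (d : ℕ), Even d ∧ 0 < d ∧ IsHom (poly c) d ∧
      ¬ (A c = true ↔ AnyDimNonneg (poly c)) := by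
  obtain ⟨S, D, c, hS, hD, hD0, hc, hhom, hneg, hpos⟩ := exists_family
  by_contra hcon
  push Not at hcon
  apply hS
  have key : ∀ n, S n ↔ (!A (c n)) = true := by
    intro n
    have h := hcon (c n) D hD hD0 (hhom n)
    rw [Bool.not_eq_true', ← Bool.not_eq_true, h]
    constructor
    · intro hn hall
      obtain ⟨k, x, -, hx⟩ := hneg n hn
      exact absurd (hall k x) (not_le.2 hx)
    · intro hall
      by_contra hn
      exact hall fun k x => (hpos n hn k x).2
  exact ComputablePred.computable_iff.2 ⟨fun n => !A (c n),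
    Primrec.not.to_comp.comp (hA.comp hc.to_comp), funext fun n => propext (key n)⟩

theorem undecidable_pos (A : Code → Bool) (hA : Computable A) :
    ∃ (c : Code) (d : ℕ), Even d ∧ 0 < d ∧ IsHom (poly c) d ∧
      ¬ (A c = true ↔ AnyDimPos (poly c)) := by
  obtain ⟨S, D, c, hS, hD, hD0, hc, hhom, hneg, hpos⟩ := exists_family
  by_contra hcon
  push Not at hcon
  apply hS
  have key : ∀ n, S n ↔ (!A (c n)) = true := by
    intro n
    have h := hcon (c n) D hD hD0 (hhom n)
    rw [Bool.not_eq_true', ← Bool.not_eq_true, h]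
    unfold AnyDimPos
    rw [if_pos ⟨D, hhom n⟩]
    constructor
    · intro hn hall
      obtain ⟨k, x, hx0, hx⟩ := hneg n hn
      exact absurd (hall k x hx0) (not_lt.2 hx.le)
    · intro hall
      by_contra hn
      exact hall fun k x hx0 => (hpos n hn k x).1 hx0
  exact ComputablePred.computable_iff.2 ⟨fun n => !A (c n),
    Primrec.not.to_comp.comp (hA.comp hc.to_comp), funext fun n => propext (key n)⟩

theorem not_computable_of (P : Code → Prop) (h : ∀ A : Code → Bool, Computable A →
    ∃ (c : Code) (d : ℕ), Even d ∧ 0 < d ∧ IsHom (poly c) d ∧ ¬ (A c = true ↔ P c)) :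
    ¬ ComputablePred P := by
  intro hP
  obtain ⟨A, hA, hAP⟩ := ComputablePred.computable_iff.1 hP
  obtain ⟨c, d, -, -, -, hc⟩ := h A hA
  apply hc
  rw [hAP]

end Pool.Agent.Q221.SymFn
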