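import Pool.Agent.Q221.SymFn.Rep

set_option autoImplicit false

namespace Pool.Agent.Q221.SymFn

open Polynomial

theorem one_le_sq (y : ℝ) : 1 ≤ 1 + y ^ 2 := by nlinarith [sq_nonneg y]

theorem abs_le_sq (y : ℝ) : |y| ≤ 1 + y ^ 2 := by
  rw [abs_le]
  constructor <;> nlinarith [sq_nonneg (y - 1), sq_nonneg (y + 1)]

/-- growth of polynomials -/
theorem poly_growth (q : ℚ[X]) : ∃ (C : ℝ) (m : ℕ), 0 ≤ C ∧
    ∀ y : ℝ, |aeval y q| ≤ C * (1 + y ^ 2) ^ m := by
  induction q using Polynomial.induction_on' with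
  | add p q hp hq =>
    obtain ⟨C, m, hC, h⟩ := hp
    obtain ⟨C', m', hC', h'⟩ := hq
    refine ⟨C + C', m + m', by positivity, fun y => ?_⟩
    have h1 := one_le_sq y
    have e1 : (1 + y ^ 2) ^ m ≤ (1 + y ^ 2) ^ (m + m') := pow_le_pow_right₀ h1 (by omega)
    have e2 : (1 + y ^ 2) ^ m' ≤ (1 + y ^ 2) ^ (m + m') := pow_le_pow_right₀ h1 (by omega)
    rw [map_add]
    calc |aeval y p + aeval y q| ≤ |aeval y p| + |aeval y q| := abs_add_le _ _
      _ ≤ C * (1 + y ^ 2) ^ m + C' * (1 + y ^ 2) ^ m' := add_le_add (h y) (h' y)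
      _ ≤ C * (1 + y ^ 2) ^ (m + m') + C' * (1 + y ^ 2) ^ (m + m') := by gcongr
      _ = _ := by ring
  | monomial n a =>
    refine ⟨|(a : ℝ)|, n, abs_nonneg _, fun y => ?_⟩
    rw [aeval_monomial, abs_mul, abs_pow]
    have : |algebraMap ℚ ℝ a| = |(a : ℝ)| := rfl
    rw [this]
    gcongr
    exact abs_le_sq y

section interp

variable {J : Type} [Fintype J] [DecidableEq J] (v : J → ℤ)

/-- the product of `X` and of all `X - v j` -/
noncomputable def e0 : ℚ[X] := X * ∏ j, (X - C (v j : ℚ))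

/-- one factor is left out -/
noncomputable def e0j (j : J) : ℚ[X] := X * ∏ i ∈ Finset.univ.erase j, (X - C (v i : ℚ))

theorem e0_eq (j : J) : e0 v = (X - C (v j : ℚ)) * e0j v j := by
  unfold e0 e0j
  rw [← Finset.mul_prod_erase Finset.univ _ (Finset.mem_univ j)]
  ring

theorem coprime_e0j (hv : Function.Injective v) (h0 : ∀ j, v j ≠ 0) (j : J) :
    IsCoprime ((X - C (v j : ℚ)) ^ 2) (e0j v j ^ 2) := by
  refine IsCoprime.pow ?_
  unfold e0j
  refine IsCoprime.mul_right ?_ (IsCoprime.prod_right ?_)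
  · have := isCoprime_X_sub_C_of_isUnit_sub (a := (v j : ℚ)) (b := 0)
      (by rw [isUnit_iff_ne_zero]; simpa using h0 j)
    simpa using this
  · intro i hi
    apply isCoprime_X_sub_C_of_isUnit_sub
    rw [isUnit_iff_ne_zero, sub_ne_zero]
    intro h
    have : v j = v i := by exact_mod_cast h
    exact (Finset.mem_erase.1 hi).1 (hv this.symm)

/-- the interpolation polynomials -/
theorem exists_Q (hv : Function.Injective v) (h0 : ∀ j, v j ≠ 0) (j : J) :
    ∃ A B : ℚ[X], A * e0j v j ^ 2 - 1 = B * (X - C (v j : ℚ)) ^ 2 := by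
  obtain ⟨a, b, h⟩ := coprime_e0j v hv h0 j
  exact ⟨b, -a, by rw [← h]; ring⟩

open Classical in
/-- indicator of the points nearest to `v j` -/
noncomputable def ind (j : J) (y : ℝ) : ℕ := if |y - v j| < 1 / 2 then 1 else 0

theorem aeval_e0j (j : J) (y : ℝ) :
    aeval y (e0j v j) = y * ∏ i ∈ Finset.univ.erase j, (y - v i) := by
  unfold e0j
  simp [map_prod]

/-- The basic estimate. -/
theorem ind_bound (hv : Function.Injective v) (h0 : ∀ j, v j ≠ 0) (j : J) (A B : ℚ[X])
    (hAB : A * e0j v j ^ 2 - 1 = B * (X - C (v j : ℚ)) ^ 2) :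
    ∃ (C : ℝ) (m : ℕ), 0 ≤ C ∧ ∀ y : ℝ, |aeval y (A * e0j v j ^ 2) - (ind v j y : ℝ)| ≤
      C * ((aeval y (e0 v)) ^ 2 * (1 + y ^ 2) ^ m) := by
  classical
  obtain ⟨CA, mA, hCA, hA⟩ := poly_growth A
  obtain ⟨CB, mB, hCB, hB⟩ := poly_growth B
  refine ⟨4 * CA + CB * 4 ^ (Fintype.card J + 1), mA + mB, by positivity, fun y => ?_⟩
  have h1 := one_le_sq y
  have eA : (1 + y ^ 2) ^ mA ≤ (1 + y ^ 2) ^ (mA + mB) := pow_le_pow_right₀ h1 (by omega)
  have eB : (1 + y ^ 2) ^ mB ≤ (1 + y ^ 2) ^ (mA + mB) := pow_le_pow_right₀ h1 (by omega)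
  have he : aeval y (e0 v) = (y - v j) * aeval y (e0j v j) := by
    rw [e0_eq v j, map_mul]
    simp
  set E := aeval y (e0j v j) with hE
  set P := (1 + y ^ 2) ^ (mA + mB) with hP
  have hP0 : 0 ≤ P := by positivity
  by_cases hy : |y - v j| < 1 / 2
  · have e1 : (ind v j y : ℝ) = 1 := by unfold ind; rw [if_pos hy]; norm_num
    have e2 : aeval y (A * e0j v j ^ 2) - 1 = aeval y B * (y - v j) ^ 2 := by
      have := congrArg (aeval y) hAB
      simpa using this
    rw [e1, e2, abs_mul, abs_of_nonneg (sq_nonneg (y - (v j : ℝ))), he]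
    -- lower bound of the other factors
    have key : (1 / 4 : ℝ) ^ (Fintype.card J + 1) ≤ E ^ 2 := by
      have hfar : ∀ n : ℤ, n ≠ v j → 1 / 2 ≤ |y - n| := by
        intro n hn
        have h2 : (1 : ℝ) ≤ |(n : ℝ) - v j| := by
          have : (1 : ℤ) ≤ |n - v j| := Int.one_le_abs (sub_ne_zero.2 hn)
          exact_mod_cast this
        have h3 : |(n : ℝ) - v j| ≤ |y - n| + |y - v j| := by
          have := abs_sub_le (n : ℝ) y (v j)
          rwa [abs_sub_comm (n : ℝ) y] at this
        linarith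
      have h4 : (1 / 2 : ℝ) ^ (Fintype.card J + 1) ≤ |E| := by
        rw [hE, aeval_e0j, abs_mul, Finset.abs_prod]
        have h5 : (1 / 2 : ℝ) ≤ |y| := by
          have := hfar 0 (h0 j).symm
          simpa using this
        have h6 : (1 / 2 : ℝ) ^ (Finset.univ.erase j).card ≤
            ∏ i ∈ Finset.univ.erase j, |y - v i| := by
          rw [← Finset.prod_const]
          refine Finset.prod_le_prod (fun _ _ => by norm_num) fun i hi => ?_
          exact hfar (v i) fun h => (Finset.mem_erase.1 hi).1 (hv h)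
        have h7 : (1 / 2 : ℝ) ^ (Fintype.card J) ≤ (1 / 2 : ℝ) ^ (Finset.univ.erase j).card :=
          pow_le_pow_of_le_one (by norm_num) (by norm_num)
            (by rw [Finset.card_erase_of_mem (Finset.mem_univ j), Finset.card_univ]; omega)
        rw [pow_succ, mul_comm]
        exact mul_le_mul h5 (h7.trans h6) (by positivity) (abs_nonneg _)
      have h8 := pow_le_pow_left₀ (by positivity) h4 2
      rw [sq_abs] at h8
      refine le_trans (le_of_eq ?_) h8
      rw [← pow_mul, mul_comm, pow_mul]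
      norm_num
    have k1 : 1 ≤ 4 ^ (Fintype.card J + 1) * E ^ 2 := by
      have := mul_le_mul_of_nonneg_left key (by positivity : (0:ℝ) ≤ 4 ^ (Fintype.card J + 1))
      rw [← mul_pow] at this
      norm_num at this
      exact this
    have k2 : |aeval y B| ≤ CB * P := (hB y).trans (by gcongr)
    calc |aeval y B| * (y - v j) ^ 2 ≤ (CB * P) * ((y - v j) ^ 2 *
          (4 ^ (Fintype.card J + 1) * E ^ 2)) := by
            apply mul_le_mul k2 _ (by positivity) (by positivity)
            nlinarith [sq_nonneg (y - (v j : ℝ))]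
      _ = CB * 4 ^ (Fintype.card J + 1) * (((y - v j) * E) ^ 2 * P) := by ring
      _ ≤ _ := by
        apply mul_le_mul_of_nonneg_right _ (by positivity)
        linarith [hCA]
  · have e1 : (ind v j y : ℝ) = 0 := by unfold ind; rw [if_neg hy]; norm_num
    rw [e1, sub_zero, map_mul, map_pow, ← hE, abs_mul, abs_of_nonneg (sq_nonneg E), he]
    have k2 : |aeval y A| ≤ CA * P := (hA y).trans (by gcongr)
    have k3 : 1 ≤ 4 * (y - v j) ^ 2 := by
      push Not at hy
      have := pow_le_pow_left₀ (by norm_num) hy 2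
      rw [sq_abs] at this
      linarith
    calc |aeval y A| * E ^ 2 ≤ (CA * P) * (4 * (y - v j) ^ 2 * E ^ 2) := by
          apply mul_le_mul k2 _ (by positivity) (by positivity)
          nlinarith [sq_nonneg E]
      _ = 4 * CA * (((y - v j) * E) ^ 2 * P) := by ring
      _ ≤ _ := by
        apply mul_le_mul_of_nonneg_right _ (by positivity)
        have : 0 ≤ CB * 4 ^ (Fintype.card J + 1) := by positivity
        linarith

end interp

end Pool.Agent.Q221.SymFn
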