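import Pool.Agent.Q221.SymFn.Code
import Pool.Agent.Helper844.DPRM

set_option autoImplicit false
set_option linter.unusedSectionVars false

namespace Pool.Agent.Q221.SymFn

open Polynomial

theorem scale_primrec (l : Code) : Primrec (fun n : ℕ => scale n l) := by
  unfold scale
  refine Primrec.list_map (Primrec.const l) ?_
  have h1 : Primrec (fun q : ℕ × ((ℕ × ℕ × ℕ) × List ℕ) => q.2.1.1) :=
    Primrec.fst.comp (Primrec.fst.comp Primrec.snd)
  have h2 : Primrec (fun q : ℕ × ((ℕ × ℕ × ℕ) × List ℕ) => q.2.1.2.1) :=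
    Primrec.fst.comp (Primrec.snd.comp (Primrec.fst.comp Primrec.snd))
  have h3 : Primrec (fun q : ℕ × ((ℕ × ℕ × ℕ) × List ℕ) => q.2.1.2.2) :=
    Primrec.snd.comp (Primrec.snd.comp (Primrec.fst.comp Primrec.snd))
  have h4 : Primrec (fun q : ℕ × ((ℕ × ℕ × ℕ) × List ℕ) => q.2.2) :=
    Primrec.snd.comp Primrec.snd
  exact ((Primrec.nat_mul.comp Primrec.fst h1).pair
    ((Primrec.nat_mul.comp Primrec.fst h2).pair h3)).pair h4

theorem EvH_zero (D : ℕ) (hD : 0 < D) (l : RL) (h : ∀ t ∈ l, wt t.2 ≤ D) :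
    EvH D 0 (fun _ => 0) l = 0 := by
  unfold EvH
  apply List.sum_eq_zero
  intro y hy
  obtain ⟨t, ht, rfl⟩ := List.mem_map.1 hy
  by_cases hw : wt t.2 = D
  · have : t.2 ≠ [] := by
      intro h0
      rw [h0] at hw
      simp [wt] at hw
      omega
    obtain ⟨k, ks, hk⟩ := List.exists_cons_of_ne_nil this
    rw [hk]
    simp
  · have := h t ht
    rw [zero_pow (by omega)]
    simp

/-- realization of multiplicities -/
theorem realize {J : Type} [Fintype J] (mult : J → ℕ) (v : J → ℝ) :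
    ∃ (k : ℕ) (x : Fin k → ℝ), ∀ q : ℝ → ℝ, ∑ i, q (x i) = ∑ j, mult j * q (v j) := by
  classical
  let e := Fintype.equivFin (Σ j, Fin (mult j))
  refine ⟨_, fun i => v (e.symm i).1, fun q => ?_⟩
  rw [Equiv.sum_comp e.symm (fun s : (Σ j, Fin (mult j)) => q (v s.1)), Fintype.sum_sigma]
  simp

/-- homogenized `ee` -/
theorem ee_hom {J : Type} [Fintype J] [DecidableEq J] (v : J → ℤ) (m : ℕ) (σ y : ℝ) (hσ : σ ≠ 0) :
    σ ^ (ee v m).natDegree * aeval (y / σ) (ee v m) =
      (y * ∏ j, (y - v j * σ)) ^ 2 * (σ ^ 2 + y ^ 2) ^ m := by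
  rw [natDegree_ee, ee_eval, e0_eval]
  have h1 : σ ^ (Fintype.card J + 1) * (y / σ * ∏ j, (y / σ - v j)) =
      y * ∏ j, (y - v j * σ) := by
    have h2 : ∏ j, (y - v j * σ) = σ ^ (Fintype.card J) * ∏ j, (y / σ - v j) := by
      rw [← Finset.card_univ, ← Finset.prod_const, ← Finset.prod_mul_distrib]
      refine Finset.prod_congr rfl fun j _ => ?_
      field_simp
    rw [h2, pow_succ]
    field_simp
  have h3 : σ ^ 2 * (1 + (y / σ) ^ 2) = σ ^ 2 + y ^ 2 := by
    field_simp
  rw [← h1, ← h3, pow_add, mul_comm 2 (Fintype.card J + 1), pow_mul, pow_mul,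
    mul_pow (σ ^ (Fintype.card J + 1)), mul_pow (σ ^ 2) _ m]
  ring

theorem family {α : Type} [Fintype α] (f : Poly α) (i0 : α) :
    ∃ (D : ℕ) (c : ℕ → Code), Even D ∧ 0 < D ∧ Primrec c ∧ (∀ n, IsHom (poly (c n)) D) ∧
      (∀ n, (∃ t : α → ℕ, t i0 = n ∧ f t = 0) →
        ∃ (k : ℕ) (x : Fin k → ℝ), x ≠ 0 ∧ trunc (poly (c n)) x < 0) ∧
      (∀ n, (¬ ∃ t : α → ℕ, t i0 = n ∧ f t = 0) →
        ∀ (k : ℕ) (x : Fin k → ℝ), (x ≠ 0 → 0 < trunc (poly (c n)) x) ∧
          0 ≤ trunc (poly (c n)) x) := by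
  classical
  obtain ⟨K, ⟨e⟩⟩ := Finite.exists_equiv_fin α
  let v : Option (Option α) → ℤ := fun j => match j with
    | none => -1
    | some none => K + 1
    | some (some a) => ((e a : ℕ) : ℤ) + 1
  have hv : Function.Injective v := by
    intro i j hij
    rcases i with _ | _ | a <;> rcases j with _ | _ | b <;> simp only [v] at hij
    · rfl
    · omega
    · omega
    · omega
    · rfl
    · have := (e b).isLt
      omega
    · omega
    · have := (e a).isLt
      omega
    · have : e a = e b := Fin.ext (by omega)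
      rw [e.injective this]
  have hv0 : ∀ j, v j ≠ 0 := by
    intro j
    rcases j with _ | _ | a <;> simp only [v] <;> omega
  obtain ⟨Q, m, M, T0, G, hG, hM, hQ0, hQv, hmain⟩ :=
    exists_bound f i0 v hv hv0 (fun a => some (some a))
  obtain ⟨WG, hWG⟩ := hG.rep (fun a => PS (Q a)) (fun a => ⟨_, PS_rep (Q a)⟩)
  set T := T0 + WG + (Q i0).natDegree with hT
  set dE := (ee v m).natDegree with hdE
  have hdE2 : dE = 2 * (Fintype.card (Option (Option α)) + 1) + 2 * m := natDegree_ee v m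
  set D := 2 * T + dE with hD
  have hDpos : 0 < D := by omega
  have hDeven : Even D := ⟨T + (Fintype.card (Option (Option α)) + 1) + m, by omega⟩
  -- representations
  have rE : Rep (fun p => (1 + p 1) ^ T * PS (ee v m) p) D := by
    have h1 : Rep (fun p : ℕ → ℝ => 1 + p 1) 2 :=
      (((Rep.const 1).mono (Nat.zero_le 2)).add (Rep.var 1)).congr (fun p => by simp)
    exact ((h1.pow T).mul (PS_rep (ee v m))).mono (by omega)
  have rN : Rep (PS (Q i0)) D := (PS_rep (Q i0)).mono (by omega)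
  have rN2 : Rep (fun p => PS (Q i0) p ^ 2) D := ((PS_rep (Q i0)).pow 2).mono (by omega)
  have rG2 : Rep (fun p => G (fun a => PS (Q a) p) ^ 2) D := (hWG.pow 2).mono (by omega)
  have rA : Rep (fun p => G (fun a => PS (Q a) p) ^ 2 + PS (Q i0) p ^ 2 - 1 / 2 +
      2 * M * ((1 + p 1) ^ T * PS (ee v m) p)) D := by
    refine (((rG2.add rN2).add ((Rep.const (-1 / 2)).mono (Nat.zero_le D))).add
      (rE.smul (2 * M))).congr ?_
    intro p
    push_cast
    ring
  have rB : Rep (fun p => -2 * PS (Q i0) p + 2 * M * ((1 + p 1) ^ T * PS (ee v m) p)) D := by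
    refine ((rN.smul (-2)).add (rE.smul (2 * M))).congr ?_
    intro p
    push_cast
    ring
  have rC : Rep (fun _ => (1 : ℝ)) D :=
    ((Rep.const 1).mono (Nat.zero_le D)).congr (fun p => by simp)
  obtain ⟨lA, wA, eA⟩ := rA
  obtain ⟨lB, wB, eB⟩ := rB
  obtain ⟨lC, wC, eC⟩ := rC
  let c : ℕ → Code := fun n => hc D lA ++ (scale n (hc D lB) ++ scale (n * n) (hc D lC))
  -- the value as a function of the homogenizing variable
  let Φ : ℕ → ℝ → (ℕ → ℝ) → ℝ := fun n σ p => EvH D σ p lA + (n * EvH D σ p lB +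
    ((n * n : ℕ) : ℝ) * EvH D σ p lC)
  have hΦ : ∀ (n k : ℕ) (x : Fin k → ℝ), trunc (poly (c n)) x = Φ n (ps x 0) (ps x) := by
    intro n k x
    simp only [c, Φ]
    rw [trunc_append, trunc_append, trunc_scale, trunc_scale, trunc_hc, trunc_hc, trunc_hc]
  have hΦcont : ∀ n p, Continuous fun σ => Φ n σ p := by
    intro n p
    exact (EvH_cont D p lA).add ((continuous_const.mul (EvH_cont D p lB)).add
      (continuous_const.mul (EvH_cont D p lC)))
  -- values away from zero
  have hval : ∀ (n k : ℕ) (x : Fin k → ℝ) (σ : ℝ), σ ≠ 0 → Φ n σ (ps x) = σ ^ D *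
      (G (fun a => ∑ i, aeval (x i / σ) (Q a)) ^ 2 +
        ((∑ i, aeval (x i / σ) (Q i0)) - n) ^ 2 - 1 / 2 +
        2 * M * (n + 1) * ((1 + ps (fun i => x i / σ) 1) ^ T *
          ∑ i, aeval (x i / σ) (ee v m))) := by
    intro n k x σ hσ
    simp only [Φ]
    rw [EvH_eq D σ hσ _ _ wA, EvH_eq D σ hσ _ _ wB, EvH_eq D σ hσ _ _ wC, eA, eB, eC]
    have hp : (fun k => ps x k / σ ^ (k + 1)) = ps (fun i => x i / σ) := by
      funext k
      rw [ps_div]
    rw [hp]
    simp only []
    rw [PS_eval _ (hQ0 i0), PS_eval _ (ee_coeff v m)]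
    have hN : (fun a => PS (Q a) (ps fun i => x i / σ)) =
        fun a => ∑ i, aeval (x i / σ) (Q a) := by
      funext a
      rw [PS_eval _ (hQ0 a)]
    rw [hN]
    push_cast
    ring
  refine ⟨D, c, hDeven, hDpos, ?_, ?_, ?_, ?_⟩
  · exact Primrec.list_append.comp (Primrec.const _) (Primrec.list_append.comp
      (scale_primrec _) ((scale_primrec _).comp (Primrec.nat_mul.comp Primrec.id Primrec.id)))
  · intro n
    exact isHom_append (isHom_hc D lA wA) (isHom_append (isHom_scale_hc D n lB wB)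
      (isHom_scale_hc D (n * n) lC wC))
  · rintro n ⟨t, ht0, htf⟩
    let mult : Option (Option α) → ℕ := fun j => match j with
      | none => (∑ a, t a * ((e a : ℕ) + 1)) + K
      | some none => 1
      | some (some a) => t a
    obtain ⟨k, x, hx⟩ := realize mult (fun j => (v j : ℝ))
    have hs : ps x 0 = 1 := by
      have h1 := hx (fun y => y ^ (0 + 1))
      have h2 : ps x 0 = ∑ i, (fun y : ℝ => y ^ (0 + 1)) (x i) := rfl
      rw [h2, h1]
      simp only [Fintype.sum_option, mult, v, zero_add, pow_one]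
      push_cast
      ring
    have hxne : x ≠ 0 := by
      rintro rfl
      simp [ps] at hs
    refine ⟨k, x, hxne, ?_⟩
    rw [hΦ, hs, hval n k x 1 one_ne_zero]
    simp only [div_one, one_pow, one_mul]
    have hE : ∑ i, aeval (x i) (ee v m) = 0 := by
      rw [hx (fun y => aeval y (ee v m))]
      refine Finset.sum_eq_zero fun j _ => ?_
      rw [ee_eval, e0_eval, Finset.prod_eq_zero (Finset.mem_univ j) (sub_self _)]
      simp
    have hN : ∀ a, ∑ i, aeval (x i) (Q a) = (t a : ℝ) := by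
      intro a
      rw [hx (fun y => aeval y (Q a))]
      simp only [hQv]
      rw [Finset.sum_eq_single (some (some a))]
      · simp [mult]
      · intro b _ hb
        rw [if_neg hb, mul_zero]
      · intro h
        exact absurd (Finset.mem_univ _) h
    rw [hE]
    have hN' : (fun a => ∑ i, aeval (x i) (Q a)) = fun a => (t a : ℝ) := funext hN
    rw [hN', hN i0, hG.val t, htf, ht0]
    norm_num
  · intro n hroot k x
    have hroot' : ∀ t : α → ℕ, t i0 = n → f t ≠ 0 := fun t h1 h2 => hroot ⟨t, h1, h2⟩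
    -- lower bound for positive σ
    have hlow : ∀ σ : ℝ, σ ≠ 0 → M * ((σ ^ 2 + ps x 1) ^ T *
        ∑ i, (x i * ∏ j, (x i - v j * σ)) ^ 2 * (σ ^ 2 + x i ^ 2) ^ m) < Φ n σ (ps x) := by
      intro σ hσ
      have h1 := hmain n T k (fun i => x i / σ) (by omega) hroot'
      have hσD : 0 < σ ^ D := hDeven.pow_pos hσ
      rw [hval n k x σ hσ]
      have h2 : M * ((σ ^ 2 + ps x 1) ^ T *
          ∑ i, (x i * ∏ j, (x i - v j * σ)) ^ 2 * (σ ^ 2 + x i ^ 2) ^ m) =
          σ ^ D * (M * ((1 + ps (fun i => x i / σ) 1) ^ T *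
            ∑ i, aeval (x i / σ) (ee v m))) := by
        have h3 : ∀ i, (x i * ∏ j, (x i - v j * σ)) ^ 2 * (σ ^ 2 + x i ^ 2) ^ m =
            σ ^ dE * aeval (x i / σ) (ee v m) := fun i => (ee_hom v m σ (x i) hσ).symm
        simp only [h3]
        rw [← Finset.mul_sum]
        have h4 : σ ^ 2 + ps x 1 = σ ^ 2 * (1 + ps (fun i => x i / σ) 1) := by
          rw [ps_div]
          field_simp
          ring
        rw [h4, mul_pow, ← pow_mul, hD, pow_add]
        ring
      rw [h2]
      apply mul_lt_mul_of_pos_left _ hσD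
      linarith
    have hcase : x ≠ 0 → 0 < trunc (poly (c n)) x := by
      intro hx
      rw [hΦ]
      by_cases hσ : ps x 0 = 0
      · rw [hσ]
        have hle : M * ((0 ^ 2 + ps x 1) ^ T *
            ∑ i, (x i * ∏ j, (x i - v j * 0)) ^ 2 * (0 ^ 2 + x i ^ 2) ^ m) ≤ Φ n 0 (ps x) := by
          have hc1 : Continuous fun σ : ℝ => M * ((σ ^ 2 + ps x 1) ^ T *
              ∑ i, (x i * ∏ j, (x i - v j * σ)) ^ 2 * (σ ^ 2 + x i ^ 2) ^ m) := by
            fun_prop
          have hc2 := hΦcont n (ps x)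
          have t1 := (hc1.tendsto 0).mono_left (nhdsWithin_le_nhds (s := Set.Ioi 0))
          have t2 := (hc2.tendsto 0).mono_left (nhdsWithin_le_nhds (s := Set.Ioi 0))
          refine le_of_tendsto_of_tendsto t1 t2 ?_
          filter_upwards [self_mem_nhdsWithin] with σ hσ
          exact (hlow σ (ne_of_gt hσ)).le
        refine lt_of_lt_of_le ?_ hle
        obtain ⟨i, hi⟩ : ∃ i, x i ≠ 0 := by
          by_contra hcon
          push Not at hcon
          exact hx (funext hcon)
        have hM' : (0 : ℝ) < M := by exact_mod_cast hM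
        have hp : 0 < ps x 1 := lt_of_lt_of_le (by positivity) (sq_le_ps x i)
        have hsum : 0 < ∑ i, (x i * ∏ j, (x i - v j * 0)) ^ 2 * ((0 : ℝ) ^ 2 + x i ^ 2) ^ m := by
          refine Finset.sum_pos' (fun i _ => by positivity) ⟨i, Finset.mem_univ i, ?_⟩
          simp only [mul_zero, sub_zero, Finset.prod_const]
          positivity
        have : 0 < ((0 : ℝ) ^ 2 + ps x 1) ^ T := by positivity
        positivity
      · refine lt_of_le_of_lt ?_ (hlow _ hσ)
        have hp := ps_one_nonneg x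
        have : 0 ≤ ∑ i, (x i * ∏ j, (x i - v j * ps x 0)) ^ 2 * (ps x 0 ^ 2 + x i ^ 2) ^ m :=
          Finset.sum_nonneg fun i _ => by positivity
        positivity
    refine ⟨hcase, ?_⟩
    by_cases hx : x = 0
    · have hps : ps x = fun _ => 0 := by
        funext k
        simp [ps, hx]
      rw [hΦ, hps]
      simp only [Φ]
      rw [EvH_zero D hDpos lA wA, EvH_zero D hDpos lB wB, EvH_zero D hDpos lC wC]
      simp
    · exact (hcase hx).le

/-- The source of undecidability. -/
theorem exists_family : ∃ (S : ℕ → Prop) (D : ℕ) (c : ℕ → Code), ¬ ComputablePred S ∧ Even D ∧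
    0 < D ∧ Primrec c ∧ (∀ n, IsHom (poly (c n)) D) ∧
    (∀ n, S n → ∃ (k : ℕ) (x : Fin k → ℝ), x ≠ 0 ∧ trunc (poly (c n)) x < 0) ∧
    (∀ n, ¬ S n → ∀ (k : ℕ) (x : Fin k → ℝ), (x ≠ 0 → 0 < trunc (poly (c n)) x) ∧
      0 ≤ trunc (poly (c n)) x) := by
  let S : ℕ → Prop := fun n => ((Nat.Partrec.Code.eval
    (Denumerable.ofNat Nat.Partrec.Code n)) 0).Dom
  have hre : REPred S := by
    have h1 : Partrec fun n : ℕ => Nat.Partrec.Code.eval (Denumerable.ofNat Nat.Partrec.Code n) 0 :=
      Nat.Partrec.Code.eval_part.comp (Computable.ofNat Nat.Partrec.Code) (Computable.const 0)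
    exact h1.dom_re
  have hnc : ¬ ComputablePred S := by
    intro h
    refine ComputablePred.halting_problem 0 ?_
    have : ManyOneReducible (fun c : Nat.Partrec.Code => (Nat.Partrec.Code.eval c 0).Dom) S := by
      refine ⟨Encodable.encode, Computable.encode, ?_⟩
      intro c
      simp [S, Denumerable.ofNat_encode]
    exact ComputablePred.computable_of_manyOneReducible this h
  obtain ⟨δ, _, p, hp⟩ := Pool.Agent.Helper844.Dio.finite_dummies
    (Pool.Agent.Helper844.Dio.dprm hre)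
  obtain ⟨D, c, h1, h2, h3, h4, h5, h6⟩ := family p (Sum.inl ())
  have key : ∀ n, S n ↔ ∃ t : Unit ⊕ δ → ℕ, t (Sum.inl ()) = n ∧ p t = 0 := by
    intro n
    have := hp (fun _ => n)
    rw [show ((fun _ => n) ∈ {v : Unit → ℕ | S (v ())} ↔ S n) from Iff.rfl] at this
    rw [this]
    constructor
    · rintro ⟨t, ht⟩
      exact ⟨Sum.elim (fun _ => n) t, rfl, ht⟩
    · rintro ⟨t, ht, hpt⟩
      refine ⟨t ∘ Sum.inr, ?_⟩
      have : Sum.elim (fun _ => n) (t ∘ Sum.inr) = t := by
        funext i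
        rcases i with u | i
        · exact ht.symm
        · rfl
      rw [this]
      exact hpt
  refine ⟨S, D, c, hnc, h1, h2, h3, h4, fun n hn => h5 n ((key n).1 hn), fun n hn => ?_⟩
  exact h6 n (fun h => hn ((key n).2 h))

end Pool.Agent.Q221.SymFn
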