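import Pool.Agent.Q221.SymFn.Def

set_option autoImplicit false

namespace Pool.Agent.Q221.SymFn

/-- the weight of a product of power sums -/
def wt (ks : List ℕ) : ℕ := (ks.map fun k => k + 1).sum

/-- lists of terms with rational coefficients -/
abbrev RL := List (ℚ × List ℕ)

/-- value of a list of terms -/
def Ev (p : ℕ → ℝ) (l : RL) : ℝ := (l.map fun t => (t.1 : ℝ) * (t.2.map p).prod).sum

/-- `F` is a polynomial in the power sums of weight at most `W` -/
def Rep (F : (ℕ → ℝ) → ℝ) (W : ℕ) : Prop :=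
  ∃ l : RL, (∀ t ∈ l, wt t.2 ≤ W) ∧ ∀ p, Ev p l = F p

theorem Rep.mono {F : (ℕ → ℝ) → ℝ} {W W' : ℕ} (h : Rep F W) (hW : W ≤ W') : Rep F W' := by
  obtain ⟨l, h1, h2⟩ := h
  exact ⟨l, fun t ht => (h1 t ht).trans hW, h2⟩

theorem Rep.congr {F G : (ℕ → ℝ) → ℝ} {W : ℕ} (h : Rep F W) (hFG : ∀ p, F p = G p) :
    Rep G W := by
  obtain ⟨l, h1, h2⟩ := h
  exact ⟨l, h1, fun p => (h2 p).trans (hFG p)⟩

theorem Rep.const (c : ℚ) : Rep (fun _ => (c : ℝ)) 0 :=
  ⟨[(c, [])], by simp [wt], by intro p; simp [Ev]⟩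

theorem Rep.var (k : ℕ) : Rep (fun p => p k) (k + 1) :=
  ⟨[(1, [k])], by simp [wt], by intro p; simp [Ev]⟩

theorem Rep.add {F G : (ℕ → ℝ) → ℝ} {W : ℕ} (hF : Rep F W) (hG : Rep G W) :
    Rep (fun p => F p + G p) W := by
  obtain ⟨l, h1, h2⟩ := hF
  obtain ⟨l', h1', h2'⟩ := hG
  refine ⟨l ++ l', ?_, ?_⟩
  · intro t ht
    rcases List.mem_append.1 ht with ht | ht
    · exact h1 t ht
    · exact h1' t ht
  · intro p
    change _ = F p + G p
    rw [← h2, ← h2']
    simp [Ev]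

theorem wt_append (a b : List ℕ) : wt (a ++ b) = wt a + wt b := by simp [wt]

theorem Ev_mul_one (p : ℕ → ℝ) (t : ℚ × List ℕ) (l : RL) :
    Ev p (l.map fun s => (t.1 * s.1, t.2 ++ s.2)) = (t.1 : ℝ) * (t.2.map p).prod * Ev p l := by
  induction l with
  | nil => simp [Ev]
  | cons s l ih =>
    simp only [Ev, List.map_cons, List.sum_cons] at ih ⊢
    rw [ih]
    simp only [List.map_append, List.prod_append]
    push_cast
    ring

theorem Ev_mul (p : ℕ → ℝ) (l l' : RL) :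
    Ev p (l.flatMap fun t => l'.map fun s => (t.1 * s.1, t.2 ++ s.2)) = Ev p l * Ev p l' := by
  induction l with
  | nil => simp [Ev]
  | cons t l ih =>
    have h1 := Ev_mul_one p t l'
    simp only [List.flatMap_cons]
    simp only [Ev, List.map_append, List.sum_append, List.map_cons, List.sum_cons] at ih h1 ⊢
    rw [ih, h1]
    ring

theorem Rep.mul {F G : (ℕ → ℝ) → ℝ} {W W' : ℕ} (hF : Rep F W) (hG : Rep G W') :
    Rep (fun p => F p * G p) (W + W') := by
  obtain ⟨l, h1, h2⟩ := hF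
  obtain ⟨l', h1', h2'⟩ := hG
  refine ⟨l.flatMap fun t => l'.map fun s => (t.1 * s.1, t.2 ++ s.2), ?_, ?_⟩
  · intro t ht
    obtain ⟨a, ha, hat⟩ := List.mem_flatMap.1 ht
    obtain ⟨b, hb, rfl⟩ := List.mem_map.1 hat
    simp only [wt_append]
    exact add_le_add (h1 a ha) (h1' b hb)
  · intro p
    rw [Ev_mul, h2, h2']

theorem Rep.pow {F : (ℕ → ℝ) → ℝ} {W : ℕ} (hF : Rep F W) (n : ℕ) :
    Rep (fun p => F p ^ n) (n * W) := by
  induction n with
  | zero => exact (Rep.const 1).congr (fun p => by simp) |>.mono (by simp)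
  | succ n ih =>
    refine Rep.mono (Rep.congr (ih.mul hF) ?_) (by rw [Nat.succ_mul])
    intro p
    ring

theorem Rep.smul {F : (ℕ → ℝ) → ℝ} {W : ℕ} (hF : Rep F W) (c : ℚ) :
    Rep (fun p => (c : ℝ) * F p) W :=
  Rep.mono ((Rep.const c).mul hF) (by omega)

theorem Rep.sub {F G : (ℕ → ℝ) → ℝ} {W : ℕ} (hF : Rep F W) (hG : Rep G W) :
    Rep (fun p => F p - G p) W := by
  refine Rep.congr (hF.add (hG.smul (-1))) ?_
  intro p
  push_cast
  ring

theorem Rep.sum {ι : Type*} (s : Finset ι) (F : ι → (ℕ → ℝ) → ℝ) {W : ℕ}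
    (hF : ∀ i ∈ s, Rep (F i) W) : Rep (fun p => ∑ i ∈ s, F i p) W := by
  classical
  induction s using Finset.induction_on with
  | empty => exact Rep.mono (Rep.congr (Rep.const 0) (fun p => by simp)) (Nat.zero_le _)
  | insert a s ha ih =>
    refine Rep.congr ((hF a (Finset.mem_insert_self _ _)).add
      (ih fun i hi => hF i (Finset.mem_insert_of_mem hi))) ?_
    intro p
    rw [Finset.sum_insert ha]

open Polynomial in
/-- power sum functional of a polynomial -/
noncomputable def PS (q : ℚ[X]) (p : ℕ → ℝ) : ℝ :=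
  ∑ m ∈ Finset.range q.natDegree, (q.coeff (m + 1) : ℝ) * p m

open Polynomial in
theorem PS_rep (q : ℚ[X]) : Rep (PS q) q.natDegree := by
  refine Rep.sum _ (fun m p => (q.coeff (m + 1) : ℝ) * p m) ?_
  intro m hm
  exact ((Rep.var m).smul (q.coeff (m + 1))).mono (by have := Finset.mem_range.1 hm; omega)

open Polynomial in
theorem PS_eval (q : ℚ[X]) (hq : q.coeff 0 = 0) {n : ℕ} (x : Fin n → ℝ) :
    PS q (ps x) = ∑ i, aeval (x i) q := by
  have h1 : ∀ y : ℝ, aeval y q = ∑ m ∈ Finset.range q.natDegree,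
      (q.coeff (m + 1) : ℝ) * y ^ (m + 1) := by
    intro y
    rw [aeval_eq_sum_range, Finset.sum_range_succ']
    simp only [hq, zero_smul, add_zero]
    refine Finset.sum_congr rfl fun m _ => ?_
    rw [Algebra.smul_def]
    rfl
  simp only [PS, ps, Finset.mul_sum]
  rw [Finset.sum_comm]
  exact Finset.sum_congr rfl fun i _ => (h1 _).symm

end Pool.Agent.Q221.SymFn
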